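import Pool.Agent.H15.UB.Targets

/-!
# Monomials: a smoothable cover of degree at most the number of exponents
-/

open Module

namespace Pool.Agent.H14.UB

open Pool.Agent.H12.Defect Pool.Agent.H15.Defect Pool.Agent.H15.UB

universe u

section newton

variable {R : Type*} [CommRing R] {N : ℕ} (s : ℕ → R)

/-- the Newton basis -/
noncomputable def nb (β : Fin N → ℕ) : MvPolynomial (Fin N) R :=
  ∏ i, ∏ j ∈ Finset.range (β i), (MvPolynomial.X i - MvPolynomial.C (s j))

theorem nb_succ (β : Fin N → ℕ) (i : Fin N) :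
    nb s (Function.update β i (β i + 1)) =
      nb s β * (MvPolynomial.X i - MvPolynomial.C (s (β i))) := by
  classical
  have h1 : ∀ i' : Fin N,
      (∏ j ∈ Finset.range (Function.update β i (β i + 1) i'),
        ((MvPolynomial.X i' : MvPolynomial (Fin N) R) - MvPolynomial.C (s j))) =
      (∏ j ∈ Finset.range (β i'), (MvPolynomial.X i' - MvPolynomial.C (s j))) *
        (if i' = i then (MvPolynomial.X i - MvPolynomial.C (s (β i))) else 1) := by
    intro i'
    by_cases h : i' = i
    · subst h
      rw [Function.update_self, Finset.prod_range_succ, if_pos rfl]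
    · rw [Function.update_of_ne h, if_neg h, mul_one]
  rw [nb, Finset.prod_congr rfl fun i' _ => h1 i', Finset.prod_mul_distrib,
    Finset.prod_ite_eq' Finset.univ i, if_pos (Finset.mem_univ i), nb]

theorem mem_span_nb (p : MvPolynomial (Fin N) R) :
    p ∈ Submodule.span R (Set.range (nb (N := N) s)) := by
  induction p using MvPolynomial.induction_on with
  | C a =>
    have h0 : nb (N := N) s 0 = 1 := by simp [nb]
    have h1 : (MvPolynomial.C a : MvPolynomial (Fin N) R) = a • nb s 0 := by
      rw [h0, MvPolynomial.smul_eq_C_mul, mul_one]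
    rw [h1]
    exact Submodule.smul_mem _ _ (Submodule.subset_span ⟨0, rfl⟩)
  | add p q hp hq => exact Submodule.add_mem _ hp hq
  | mul_X p i hp =>
    induction hp using Submodule.span_induction with
    | mem y hy =>
      obtain ⟨β, rfl⟩ := hy
      have h1 : nb s β * MvPolynomial.X i =
          nb s (Function.update β i (β i + 1)) + s (β i) • nb s β := by
        rw [nb_succ, MvPolynomial.smul_eq_C_mul]
        ring
      rw [h1]
      exact Submodule.add_mem _ (Submodule.subset_span ⟨_, rfl⟩)
        (Submodule.smul_mem _ _ (Submodule.subset_span ⟨_, rfl⟩))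
    | zero => rw [zero_mul]; exact Submodule.zero_mem _
    | add y z _ _ hy hz => rw [add_mul]; exact Submodule.add_mem _ hy hz
    | smul a y _ hy => rw [smul_mul_assoc]; exact Submodule.smul_mem _ _ hy

theorem eval_nb (β γ : Fin N → ℕ) :
    MvPolynomial.eval (fun i => s (γ i)) (nb s β) =
      ∏ i, ∏ j ∈ Finset.range (β i), (s (γ i) - s j) := by
  simp [nb]

theorem eval_nb_eq_zero {β γ : Fin N → ℕ} (h : ¬ β ≤ γ) :
    MvPolynomial.eval (fun i => s (γ i)) (nb s β) = 0 := by
  rw [eval_nb]
  rw [Pi.le_def] at h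
  push Not at h
  obtain ⟨i, hi⟩ := h
  refine Finset.prod_eq_zero (Finset.mem_univ i) ?_
  exact Finset.prod_eq_zero (Finset.mem_range.mpr hi) (sub_self _)

theorem eval_nb_ne_zero [IsDomain R] (hs : Function.Injective s) (γ : Fin N → ℕ) :
    MvPolynomial.eval (fun i => s (γ i)) (nb s γ) ≠ 0 := by
  rw [eval_nb, Finset.prod_ne_zero_iff]
  intro i _
  rw [Finset.prod_ne_zero_iff]
  intro j hj
  rw [sub_ne_zero]
  intro h
  have h1 := hs h
  rw [Finset.mem_range] at hj
  omega

theorem coeff_zero [IsDomain R] (hs : Function.Injective s) (D : Finset (Fin N → ℕ))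
    (hD : ∀ β ∈ D, ∀ γ : Fin N → ℕ, γ ≤ β → γ ∈ D) (q : (Fin N → ℕ) →₀ R)
    (h0 : ∀ γ ∈ D, MvPolynomial.eval (fun i => s (γ i)) (q.sum fun β a => a • nb s β) = 0) :
    ∀ n : ℕ, ∀ γ ∈ D, ∑ i, γ i = n → q γ = 0 := by
  classical
  intro n
  induction n using Nat.strong_induction_on with
  | _ n ih =>
    intro γ hγ hn
    have h1 := h0 γ hγ
    rw [Finsupp.sum, map_sum] at h1
    have h2 : ∀ β ∈ q.support, β ≠ γ →
        MvPolynomial.eval (fun i => s (γ i)) (q β • nb s β) = 0 := by
      intro β _ hne
      rw [MvPolynomial.smul_eval]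
      by_cases hle : β ≤ γ
      · have hlt : ∑ i, β i < ∑ i, γ i := by
          obtain ⟨i, hi⟩ : ∃ i, β i < γ i := by
            by_contra hcon
            push Not at hcon
            exact hne (le_antisymm hle hcon)
          exact Finset.sum_lt_sum (fun j _ => hle j) ⟨i, Finset.mem_univ i, hi⟩
        rw [ih _ (hn ▸ hlt) β (hD γ hγ β hle) rfl, zero_mul]
      · rw [eval_nb_eq_zero s hle, mul_zero]
    by_contra hq
    have h3 : γ ∈ q.support := Finsupp.mem_support_iff.mpr hq
    rw [Finset.sum_eq_single_of_mem γ h3 h2, MvPolynomial.smul_eval] at h1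
    rcases mul_eq_zero.mp h1 with h4 | h4
    · exact hq h4
    · exact eval_nb_ne_zero s hs γ h4

end newton

theorem pf_MONO : T_MONO.{u} := by
  classical
  intro k _ _ A _ _ N x D htop hD hvan
  let c0 : ℕ ↪ k := Infinite.natEmbedding k
  let s : ℕ → PowerSeries k := fun j => PowerSeries.X * PowerSeries.C (c0 j)
  have hs : Function.Injective s := by
    intro i j hij
    have h1 : (PowerSeries.X : PowerSeries k) * PowerSeries.C (c0 i) =
      PowerSeries.X * PowerSeries.C (c0 j) := hij
    have h2 := mul_left_cancel₀ PowerSeries.X_ne_zero h1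
    exact c0.injective (PowerSeries.C_injective h2)
  have hs0 : ∀ j, PowerSeries.constantCoeff (s j) = 0 := by
    intro j
    simp [s]
  let c : PowerSeries k →+* A := (algebraMap k A).comp PowerSeries.constantCoeff
  let φ : MvPolynomial (Fin N) (PowerSeries k) →+* A := MvPolynomial.eval₂Hom c x
  let ev : MvPolynomial (Fin N) (PowerSeries k) →ₐ[PowerSeries k]
      ({β // β ∈ D} → PowerSeries k) :=
    AlgHom.pi (fun γ => MvPolynomial.aeval (fun i => s (γ.1 i)))
  have hev : ∀ p γ, ev p γ = MvPolynomial.eval (fun i => s (γ.1 i)) p := fun p γ => by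
    show MvPolynomial.aeval (fun i => s (γ.1 i)) p = _
    rw [MvPolynomial.aeval_eq_eval]
  have hφnb : ∀ β : Fin N → ℕ, φ (nb s β) = ∏ i, x i ^ β i := by
    intro β
    rw [nb, map_prod]
    refine Finset.prod_congr rfl fun i _ => ?_
    rw [map_prod]
    have h1 : ∀ j ∈ Finset.range (β i), φ (MvPolynomial.X i - MvPolynomial.C (s j)) = x i := by
      intro j _
      rw [map_sub]
      have h2 : φ (MvPolynomial.X i) = x i := MvPolynomial.eval₂Hom_X' c x i
      have h3 : φ (MvPolynomial.C (s j)) = 0 := by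
        have h4 : φ (MvPolynomial.C (s j)) = c (s j) := MvPolynomial.eval₂Hom_C c x (s j)
        rw [h4]
        show algebraMap k A (PowerSeries.constantCoeff (s j)) = 0
        rw [hs0, map_zero]
      rw [h2, h3, sub_zero]
    rw [Finset.prod_congr rfl h1, Finset.prod_const, Finset.card_range]
  have h := dle_of_arc (k := k) ev φ ?_ ?_ ?_ ?_
  · rwa [Fintype.card_coe] at h
  · intro a
    have ha : a ∈ Algebra.adjoin k (Set.range x) := by rw [htop]; trivial
    rw [Algebra.adjoin_range_eq_range_aeval] at ha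
    obtain ⟨p, rfl⟩ := ha
    refine ⟨MvPolynomial.map PowerSeries.C p, ?_⟩
    show MvPolynomial.eval₂ c x (MvPolynomial.map PowerSeries.C p) = MvPolynomial.aeval x p
    rw [MvPolynomial.eval₂_map]
    have h1 : c.comp PowerSeries.C = algebraMap k A := by
      ext r
      simp [c]
    rw [h1]
    rfl
  · show φ (MvPolynomial.C PowerSeries.X) = 0
    have h4 : φ (MvPolynomial.C PowerSeries.X) = c PowerSeries.X := MvPolynomial.eval₂Hom_C c x _
    rw [h4]
    simp [c]
  · intro r
    show φ (MvPolynomial.C (PowerSeries.C r)) = _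
    have h4 : φ (MvPolynomial.C (PowerSeries.C r)) = c (PowerSeries.C r) :=
      MvPolynomial.eval₂Hom_C c x _
    rw [h4]
    simp [c]
  · intro p hp
    have hmem := mem_span_nb s p
    rw [Finsupp.mem_span_range_iff_exists_finsupp] at hmem
    obtain ⟨q, rfl⟩ := hmem
    have hq : ∀ γ ∈ D, q γ = 0 := by
      intro γ hγ
      refine coeff_zero s hs D hD q ?_ _ γ hγ rfl
      intro γ' hγ'
      rw [← hev _ ⟨γ', hγ'⟩, hp]
      rfl
    rw [Finsupp.sum, map_sum]
    refine Finset.sum_eq_zero fun β _ => ?_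
    by_cases hβ : β ∈ D
    · rw [hq β hβ, zero_smul, map_zero]
    · rw [MvPolynomial.smul_eq_C_mul, map_mul, hφnb, hvan β hβ, mul_zero]

end Pool.Agent.H14.UB
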