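import Pool.Agent.H15.UB.Targets
import Pool.Agent.H12.TG.Rank

/-!
# Linear independence persists along a polynomial curve
-/

open Module

namespace Pool.Agent.H14.UB

open Pool.Agent.H15.UB

universe u

theorem pf_PERS : T_PERS.{u} := by
  classical
  intro k _ B _ _ _ a w t₀ h0
  let e := Module.finBasis k B
  -- coordinate polynomials
  let co : Fin (finrank k B) → B →ₗ[k] k := fun l => e.coord l
  let P : Fin a → Fin (finrank k B) → Polynomial k := fun i l =>
    (w i).sum fun n b => Polynomial.monomial n (co l b)
  have hP : ∀ i l t, (P i l).eval t = co l ((w i).eval (algebraMap k B t)) := by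
    intro i l t
    simp only [P, Polynomial.sum_def, Polynomial.eval_finsetSum, Polynomial.eval_monomial]
    rw [Polynomial.eval_eq_sum, Polynomial.sum_def, map_sum]
    refine Finset.sum_congr rfl fun n _ => ?_
    rw [← map_pow, mul_comm ((w i).coeff n), ← Algebra.smul_def, map_smul, smul_eq_mul, mul_comm]
  have hlin : ∀ t : k, LinearIndependent k (fun i => (w i).eval (algebraMap k B t)) ↔
      LinearIndependent k (fun i => (fun l => (P i l).eval t : Fin (finrank k B) → k)) := by
    intro t
    let E : B →ₗ[k] (Fin (finrank k B) → k) := e.equivFun.toLinearMap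
    have h1 : (fun i => (fun l => (P i l).eval t : Fin (finrank k B) → k)) =
        E ∘ (fun i => (w i).eval (algebraMap k B t)) := by
      funext i l
      rw [hP]
      rfl
    rw [h1]
    constructor
    · intro h
      exact h.map' E (LinearEquiv.ker e.equivFun)
    · intro h
      exact LinearIndependent.of_comp E h
  let M : k → Matrix (Fin a) (Fin (finrank k B)) k := fun t i l => (P i l).eval t
  have hrank : (M t₀).transpose.rank = a := by
    rw [Matrix.rank_transpose]
    have h1 : LinearIndependent k (M t₀).row := (hlin t₀).mp h0
    rw [h1.rank_matrix, Fintype.card_fin]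
  obtain ⟨f, hf⟩ := Pool.Agent.H12.TG.exists_rows _ hrank
  have hdet0 : ((M t₀).submatrix id f).det ≠ 0 := by
    have h1 := Matrix.linearIndependent_rows_iff_isUnit.mp hf
    have h2 : ((M t₀).transpose.submatrix f id) = ((M t₀).submatrix id f).transpose := by
      ext i j
      rfl
    rw [h2, Matrix.isUnit_iff_isUnit_det, Matrix.det_transpose] at h1
    exact h1.ne_zero
  let Q : Polynomial k := (Matrix.of fun i j => P i (f j) : Matrix (Fin a) (Fin a) _).det
  have hQ : ∀ t, Q.eval t = ((M t).submatrix id f).det := by
    intro t
    have h1 := RingHom.map_det (Polynomial.evalRingHom t)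
      (Matrix.of fun i j => P i (f j) : Matrix (Fin a) (Fin a) (Polynomial k))
    rw [Polynomial.coe_evalRingHom] at h1
    exact h1
  have hQ0 : Q ≠ 0 := by
    intro hz
    apply hdet0
    rw [← hQ, hz, Polynomial.eval_zero]
  refine (Q.roots.toFinset.finite_toSet).subset ?_
  intro t ht
  rw [Finset.mem_coe, Multiset.mem_toFinset, Polynomial.mem_roots hQ0, Polynomial.IsRoot.def]
  by_contra hne
  apply ht
  rw [hlin t]
  rw [hQ] at hne
  have h1 : LinearIndependent k ((M t).submatrix id f).row :=
    Matrix.linearIndependent_rows_of_det_ne_zero hne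
  exact LinearIndependent.of_comp (LinearMap.funLeft k k f) h1

end Pool.Agent.H14.UB
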